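import Pool.Agent.H37.CTL.Stmts

/-!
Board ctl, row T55, helper46: the quotient `W / M`, `M = {g_12 = 0}`.
-/

set_option autoImplicit false

namespace Pool.CND

open Finset

namespace T55Aux

/-- the order of `z` from the order of `z ^ q - z` -/
lemma ordz {k L : Type} [Field k] [Field L] [Algebra k L] (P : Place k L) (q : ℕ) (hq : 2 ≤ q)
    (z : L) (hA : z ^ q - z ≠ 0) (ho : P.ord (z ^ q - z) < 0) :
    (q : ℤ) * P.ord z = P.ord (z ^ q - z) := by
  have hz : z ≠ 0 := by
    rintro rfl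
    apply hA
    rw [zero_pow (by omega), sub_zero]
  have hz' : P.ord z < 0 := by
    by_contra hc
    rw [not_lt] at hc
    have h1 : P.Ge (z ^ q) 0 := Or.inr (by rw [P.ord_pow hz]; positivity)
    have h2 : P.Ge z 0 := Or.inr hc
    rcases P.ge_sub h1 h2 with h3 | h3
    · exact hA h3
    · omega
  have h1 : P.Ge (-z) (P.ord (z ^ q) + 1) := by
    refine Or.inr ?_
    rw [P.ord_neg, P.ord_pow hz]
    have hq' : (2 : ℤ) ≤ (q : ℤ) := by exact_mod_cast hq
    nlinarith
  have h2 := (P.ord_add_of_lt (pow_ne_zero q hz) h1).2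
  rw [← sub_eq_add_neg] at h2
  rw [h2, P.ord_pow hz]

end T55Aux

open T55Aux

theorem t55_thm (hUMR : S_UMR) (hINF : S_INF) (hTOT : S_TOT) (hWLD : S_WLD) : S_T55 := by
  intro p k F L _ _ _ _ _ _ f q t X G₀ _ ρ P S₂ S₃ h z η I W M hp hp2 hchar hf hq hF hC ht hut
    hS2 hS3 hX0 hS20 hh hh0 hz hoh hge hI hW hM
  have : Fact p.Prime := ⟨hp⟩
  have : CharP L p := charP_of_injective_algebraMap (algebraMap k L).injective p
  have hp3 : 3 ≤ p := by
    have := hp.two_le
    omega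
  have hq3 : 3 ≤ q := by
    rw [hq]
    calc 3 ≤ p := hp3
      _ = p ^ 1 := (pow_one p).symm
      _ ≤ p ^ f := Nat.pow_le_pow_right hp.pos hf
  have : Finite F := Nat.finite_of_card_ne_zero (by rw [hF]; omega)
  let _ : Fintype F := Fintype.ofFinite F
  have hfro : ∀ x y : L, (x + y) ^ q = x ^ q + y ^ q := by
    intro x y
    rw [hq]
    exact add_pow_expChar_pow x y p f
  have hc : ∀ a : F, (cst k F L a) ^ q = cst k F L a := by
    intro a
    have h1 : a ^ q = a := by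
      rw [← hF, Nat.card_eq_fintype_card]
      exact FiniteField.pow_card a
    show (algebraMap k L (algebraMap F k a)) ^ q = algebraMap k L (algebraMap F k a)
    rw [← map_pow, ← map_pow, h1]
  have hWm : ∀ g : G₀, g ∈ W ↔ g ∈ ram P ρ 1 := by
    intro g
    rw [← hW]
    rfl
  have hcq : X 0 ^ (q - 1) * X 0 = X 0 ^ q := by
    rw [← pow_succ]
    congr 1
    omega
  -- the action
  have a0 : ∀ g ∈ W, ρ g (X 0) = X 0 := by
    intro g hg
    obtain ⟨u1, u2⟩ := hut g ((hWm g).1 hg)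
    rw [hC.act g 0, Fin.sum_univ_three, u2 0, u1 1 0 (by decide), u1 2 0 (by decide)]
    simp [cst]
  have a1 : ∀ g ∈ W, ρ g (X 1) = cst k F L (g.1.1 0 1) * X 0 + X 1 := by
    intro g hg
    obtain ⟨u1, u2⟩ := hut g ((hWm g).1 hg)
    rw [hC.act g 1, Fin.sum_univ_three, u2 1, u1 2 1 (by decide)]
    simp [cst]
  have a2 : ∀ g ∈ W, ρ g (X 2) = cst k F L (g.1.1 0 2) * X 0 + cst k F L (g.1.1 1 2) * X 1 + X 2 := by
    intro g hg
    obtain ⟨u1, u2⟩ := hut g ((hWm g).1 hg)
    rw [hC.act g 2, Fin.sum_univ_three, u2 2]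
    simp [cst]
  have b2 : ∀ g ∈ W, ρ g S₂ = S₂ := by
    intro g hg
    rw [hS2, map_sub, map_mul, map_pow, map_pow, a0 g hg, a1 g hg, hfro, mul_pow, hc, ← hcq]
    ring
  have b3 : ∀ g ∈ W, ρ g S₃ = S₃ + cst k F L (g.1.1 1 2) * S₂ := by
    intro g hg
    rw [hS3, hS2, map_sub, map_mul, map_pow, map_pow, a0 g hg, a2 g hg, hfro, hfro, mul_pow, mul_pow,
      hc, hc, ← hcq]
    ring
  have bt : ∀ g : G₀, ρ g t = t := by
    intro g
    have := (hC.cov.fixed t).2 (IntermediateField.mem_adjoin_simple_self k t)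
    exact this g
  have bh : ∀ g ∈ W, ρ g h = h := by
    intro g hg
    rw [hh, map_div₀, map_mul, bt, b2 g hg, AlgEquiv.commutes]
  have bz : ∀ g ∈ W, ρ g z = z + cst k F L (g.1.1 1 2) := by
    intro g hg
    rw [hz, map_sub, map_div₀, b3 g hg, b2 g hg, bh g hg]
    field_simp
    ring
  -- the order of A
  set A : L := z ^ q - z with hAdef
  have bA : ∀ g ∈ W, ρ g A = A := by
    intro g hg
    rw [hAdef, map_sub, map_pow, bz g hg, hfro, hc]
    ring
  have hA1 : A ≠ 0 ∧ P.ord A = P.ord h := by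
    have h1 : P.Ge (A + h) (P.ord (-h) + 1) := by
      rw [P.ord_neg]
      exact P.ge_mono hge (by omega)
    have h2 := P.ord_add_of_lt (neg_ne_zero.2 hh0) h1
    have h3 : -h + (A + h) = A := by ring
    rw [h3, P.ord_neg] at h2
    exact h2
  obtain ⟨hA0, hAo⟩ := hA1
  have hIo := hINF k L G₀ ρ t P I hC.cov ht hI
  obtain ⟨τz, hτz⟩ := hTOT k L G₀ P ρ W hC.cov.inj (fun n hn => ((hWm n).1 hn).1) A hA0 bA
  have hWpos : 0 < Nat.card W := Nat.card_pos
  have hIpos : 0 < Nat.card I := Nat.card_pos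
  have hq1 : ((q - 1 : ℕ) : ℤ) = (q : ℤ) - 1 := by push_cast [Nat.cast_sub (by omega : 1 ≤ q)]; ring
  have hqz : (3 : ℤ) ≤ (q : ℤ) := by exact_mod_cast hq3
  have hAneg : P.ord A < 0 := by
    rw [hAo]
    by_contra hcon
    rw [not_lt] at hcon
    have : 0 ≤ ((q : ℤ) - 1) * P.ord h := mul_nonneg (by linarith) hcon
    omega
  have hτneg : τz < 0 := by
    by_contra hcon
    rw [not_lt] at hcon
    have : 0 ≤ (Nat.card W : ℤ) * τz := mul_nonneg (by positivity) hcon
    omega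
  obtain ⟨τ, hτ⟩ : ∃ τ : ℕ, τz = -(τ : ℤ) := ⟨τz.natAbs, by omega⟩
  have hτ1 : 1 ≤ τ := by omega
  have hAo' : P.ord A = -((τ * Nat.card W : ℕ) : ℤ) := by
    rw [hτz, hτ]
    push_cast
    ring
  have hIW : Nat.card I = Nat.card W * ((q - 1) * τ) := by
    have h1 : (Nat.card I : ℤ) = ((Nat.card W * ((q - 1) * τ) : ℕ) : ℤ) := by
      have h2 : ((q : ℤ) - 1) * P.ord A = -(Nat.card I : ℤ) := by rw [hAo, hoh, hIo]
      rw [hAo'] at h2
      push_cast [hq1] at h2 ⊢
      linarith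
    exact_mod_cast h1
  have hτp : ¬ p ∣ τ := by
    obtain ⟨W', I', hW', hI', -, -, m, hm, hcard⟩ := hWLD p k L G₀ P ρ hp hchar hC.cov.inj
    have e1 : W' = W := SetLike.coe_injective (hW'.trans hW.symm)
    have e2 : I' = I := SetLike.coe_injective (hI'.trans hI.symm)
    rw [e1, e2, hIW] at hcard
    have h3 : (q - 1) * τ = m := by
      have : Nat.card W * ((q - 1) * τ) = Nat.card W * m := by rw [hcard]; ring
      exact Nat.eq_of_mul_eq_mul_left hWpos this
    intro hd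
    exact hm (h3 ▸ Dvd.dvd.mul_left hd _)
  -- UMR
  have hMW : M ≤ W := fun g hg => ((hM g).1 hg).1
  have hmain := hUMR p k F L G₀ f q 1 τ P ρ W M (fun g => fun _ => g.1.1 1 2) (fun _ => z)
    (fun _ => τ) hp hchar hf hq hF le_rfl hC.cov.inj (fun g hg => (hWm g).1 hg) hMW
    (by
      intro g hg
      rw [hM g]
      constructor
      · intro h1
        funext i
        exact h1.2
      · intro h1
        exact ⟨hg, congrFun h1 0⟩)
    (by
      intro g hg g' hg'
      obtain ⟨u1, u2⟩ := hut g ((hWm g).1 hg)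
      obtain ⟨v1, v2⟩ := hut g' ((hWm g').1 hg')
      funext i
      show (g * g').1.1 1 2 = g.1.1 1 2 + g'.1.1 1 2
      have : (g * g').1.1 1 2 = ∑ j, g.1.1 1 j * g'.1.1 j 2 := by
        rw [Subgroup.coe_mul, Matrix.SpecialLinearGroup.coe_mul, Matrix.mul_apply]
      rw [this, Fin.sum_univ_three, u1 1 0 (by decide), u2 1, v2 2]
      ring)
    (fun g hg _ => bz g hg)
    (by
      intro a ha
      refine ⟨hτ1, hτp, le_rfl, 0, fun w _ => map_zero _, ?_⟩
      have ha0 : a 0 ≠ 0 := by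
        intro h0
        apply ha
        funext i
        fin_cases i
        exact h0
      have hk0 : algebraMap F k (a 0) ≠ 0 := by
        rw [Ne, map_eq_zero]
        exact ha0
      have hL0 : algebraMap k L (algebraMap F k (a 0)) ≠ 0 := by
        rw [Ne, map_eq_zero]
        exact hk0
      have e1 : ∑ i : Fin 1, cst k F L (a i) * (z ^ q - z) - ((0 : L) ^ p - 0) =
          algebraMap k L (algebraMap F k (a 0)) * A := by
        rw [Fin.sum_univ_one, zero_pow hp.ne_zero, sub_zero, sub_zero]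
      rw [e1, P.ord_mul _ _ hL0 hA0, P.ord_const _ hk0, zero_add]
      exact ⟨mul_ne_zero hL0 hA0, hAo'⟩)
  obtain ⟨m1, -, m3, -⟩ := hmain
  rw [pow_one] at m1
  refine ⟨τ, hτ1, hτp, m1, hIW, ?_, bz, m3 (fun _ _ => rfl)⟩
  have h1 := ordz P q (by omega) z hA0 hAneg
  rw [← hAdef, hAo', m1] at h1
  have hq0 : (q : ℤ) ≠ 0 := by omega
  have h2 : (q : ℤ) * P.ord z = (q : ℤ) * (-((τ * Nat.card M : ℕ) : ℤ)) := by
    rw [h1]
    push_cast
    ring
  exact mul_left_cancel₀ hq0 h2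

end Pool.CND
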